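import Pool.Agent.N436.DF.Stm3

/-! Part DH/27 of project DF: two-sided argument (pair unit). -/

set_option autoImplicit false

namespace Pool.Agent.N81.DF.T2E

open Finset Pool.Agent.N436.DF

variable {V : Type} [DecidableEq V]

structure E (H : Hub V) (S X : Finset V) (v y₁ y₂ x z : V) : Prop where
  ok : Ok P13 H
  hv : v ∈ X
  hx : x ∈ X
  hxv : x ≠ v
  hy₁ : y₁ ∈ S \ X
  hy₂ : y₂ ∈ S \ X
  hz : z ∈ S \ X
  ne : y₁ ≠ y₂
  hr : ∀ a ∈ X, ∀ b ∈ S \ X, H.r a b =
    if a = v then (if b = y₁ then 1 else 0) + (if b = y₂ then 1 else 0) else 0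
  hm : ∀ a ∈ X, ∀ b ∈ S \ X, H.m a b = if a = x then (if b = z then 1 else 0) else 0

theorem mkE {H : Hub V} {S X : Finset V} {v y₁ y₂ x z : V} {ν : ℤ} (t : T2 H S X v y₁ y₂ ν)
    (hbo : bo H S X v ≤ 2) (heo : eo H S X v = 1) (hx : x ∈ X) (hxv : x ≠ v) (hz : z ∈ S \ X)
    (hm : H.m x z = 1) : E H S X v y₁ y₂ x z := by
  have ok := t.mc.ok
  have rn : ∀ a b, 0 ≤ H.r a b := by
    intro a b
    rcases ok.r01 a b with h | h <;> omega
  have nn : ∀ a b, 0 ≤ H.r a b + H.m a b := by
    intro a b
    have h1 := ok.m_nn a b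
    have h2 := rn a b
    omega
  have hV2 : H.m v y₁ = 0 ∧ H.m v y₂ = 0 := by
    have h : ∑ b ∈ ({y₁, y₂} : Finset V), (H.r v b + H.m v b) ≤ bo H S X v := by
      apply Finset.sum_le_sum_of_subset_of_nonneg
      · intro b hb
        simp only [Finset.mem_insert, Finset.mem_singleton] at hb
        rcases hb with rfl | rfl
        · exact t.hy₁
        · exact t.hy₂
      · intro b _ _
        exact nn v b
    rw [Finset.sum_pair t.ne, t.r₁, t.r₂] at h
    have h1 := ok.m_nn v y₁
    have h2 := ok.m_nn v y₂
    constructor <;> omega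
  have hV3 : ∀ b ∈ S \ X, b ≠ y₁ → b ≠ y₂ → H.r v b = 0 ∧ H.m v b = 0 := by
    intro b hb h1 h2
    have h : ∑ c ∈ ({b, y₁, y₂} : Finset V), (H.r v c + H.m v c) ≤ bo H S X v := by
      apply Finset.sum_le_sum_of_subset_of_nonneg
      · intro c hc
        simp only [Finset.mem_insert, Finset.mem_singleton] at hc
        rcases hc with rfl | rfl | rfl
        · exact hb
        · exact t.hy₁
        · exact t.hy₂
      · intro c _ _
        exact nn v c
    rw [Finset.sum_insert (by simp [h1, h2]), Finset.sum_pair t.ne, t.r₁, t.r₂] at h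
    have h3 := ok.m_nn v y₁
    have h4 := ok.m_nn v y₂
    have h5 := ok.m_nn v b
    have h6 := rn v b
    constructor <;> omega
  have hE : ∀ T : Finset (V × V), T ⊆ (X.erase v) ×ˢ (S \ X) →
      ∑ e ∈ T, (H.r e.1 e.2 + H.m e.1 e.2) ≤ 1 := by
    intro T hT
    have h := Finset.sum_le_sum_of_subset_of_nonneg
      (f := fun e : V × V => H.r e.1 e.2 + H.m e.1 e.2) hT (fun e _ _ => nn e.1 e.2)
    rw [Finset.sum_product] at h
    exact h.trans heo.le
  have hxz : (x, z) ∈ (X.erase v) ×ˢ (S \ X) := by
    simp only [Finset.mem_product, Finset.mem_erase]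
    exact ⟨⟨hxv, hx⟩, hz⟩
  have hE1 : H.r x z = 0 := by
    have h := hE {(x, z)} (Finset.singleton_subset_iff.2 hxz)
    rw [Finset.sum_singleton] at h
    have h1 := rn x z
    have h2 : H.r x z + H.m x z ≤ 1 := h
    omega
  have hE2 : ∀ a ∈ X, a ≠ v → ∀ b ∈ S \ X, ¬ (a = x ∧ b = z) → H.r a b = 0 ∧ H.m a b = 0 := by
    intro a ha hav b hb hne
    have hab : (a, b) ≠ (x, z) := by
      intro h
      exact hne ⟨congrArg Prod.fst h, congrArg Prod.snd h⟩
    have h := hE {(a, b), (x, z)} (by
      intro e he
      simp only [Finset.mem_insert, Finset.mem_singleton] at he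
      rcases he with rfl | rfl
      · simp only [Finset.mem_product, Finset.mem_erase]
        exact ⟨⟨hav, ha⟩, hb⟩
      · exact hxz)
    rw [Finset.sum_pair hab] at h
    have h0 : (H.r a b + H.m a b) + (H.r x z + H.m x z) ≤ 1 := h
    have h1 := rn a b
    have h2 := rn x z
    have h3 := ok.m_nn a b
    constructor <;> omega
  refine ⟨ok, t.hv, hx, hxv, t.hy₁, t.hy₂, hz, t.ne, ?_, ?_⟩
  · intro a ha b hb
    by_cases hav : a = v
    · subst hav
      rw [if_pos rfl]
      by_cases h1 : b = y₁
      · subst h1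
        rw [t.r₁, if_pos rfl, if_neg t.ne]
        norm_num
      · by_cases h2 : b = y₂
        · subst h2
          rw [t.r₂, if_pos rfl, if_neg h1]
          norm_num
        · rw [(hV3 b hb h1 h2).1, if_neg h1, if_neg h2]
          norm_num
    · rw [if_neg hav]
      by_cases h : a = x ∧ b = z
      · obtain ⟨rfl, rfl⟩ := h
        exact hE1
      · exact (hE2 a ha hav b hb h).1
  · intro a ha b hb
    by_cases hav : a = v
    · subst hav
      rw [if_neg (Ne.symm hxv)]
      by_cases h1 : b = y₁
      · subst h1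
        exact hV2.1
      · by_cases h2 : b = y₂
        · subst h2
          exact hV2.2
        · exact (hV3 b hb h1 h2).2
    · by_cases h : a = x ∧ b = z
      · obtain ⟨rfl, rfl⟩ := h
        rw [if_pos rfl, if_pos rfl, hm]
      · rw [(hE2 a ha hav b hb h).2]
        by_cases h1 : a = x
        · rw [if_pos h1, if_neg (fun h2 => h ⟨h1, h2⟩)]
        · rw [if_neg h1]

/-- indicator -/
def ind (y : V) (C : Finset V) : ℤ := if y ∈ C then 1 else 0

theorem rr_eq {H : Hub V} {S X : Finset V} {v y₁ y₂ x z : V} (e : E H S X v y₁ y₂ x z)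
    {C : Finset V} (hC : C ⊆ S \ X) : rr H X C = ind y₁ C + ind y₂ C := by
  unfold rr ind
  rw [Finset.sum_congr rfl fun a ha => Finset.sum_congr rfl fun b hb => e.hr a ha b (hC hb)]
  rw [Finset.sum_eq_single v]
  · simp only [if_true, Finset.sum_add_distrib, Finset.sum_ite_eq']
  · intro a _ ha
    simp [ha]
  · intro h
    exact absurd e.hv h

theorem mm_eq {H : Hub V} {S X : Finset V} {v y₁ y₂ x z : V} (e : E H S X v y₁ y₂ x z)
    {C : Finset V} (hC : C ⊆ S \ X) : mm H X C = ind z C := by
  unfold mm ind
  rw [Finset.sum_congr rfl fun a ha => Finset.sum_congr rfl fun b hb => e.hm a ha b (hC hb)]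
  rw [Finset.sum_eq_single x]
  · simp only [if_true, Finset.sum_ite_eq']
  · intro a _ ha
    simp [ha]
  · intro h
    exact absurd e.hx h

/-- point reservation -/
def pt (w : V) (α β : ℤ) (i : Bool) (a : V) : ℤ := if a = w then (if i = true then α else β) else 0

theorem cost_pt (w : V) (α β : ℤ) (C : Finset V) :
    cost (pt w α β) C = (5 * α + 3 * β) * ind w C := by
  unfold cost pt ind
  have h : ∀ z ∈ C, (5 * (if z = w then (if true = true then α else β) else 0) +
      3 * (if z = w then (if false = true then α else β) else 0)) =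
      if z = w then 5 * α + 3 * β else 0 := by
    intro z _
    by_cases hz : z = w <;> simp [hz]
  rw [Finset.sum_congr rfl h, Finset.sum_ite_eq']
  by_cases hw : w ∈ C <;> simp [hw]

theorem cost_add (l l' : Bool → V → ℤ) (C : Finset V) :
    cost (fun i a => l i a + l' i a) C = cost l C + cost l' C := by
  unfold cost
  rw [← Finset.sum_add_distrib]
  exact Finset.sum_congr rfl fun z _ => by ring

theorem pt_nn (w : V) {α β : ℤ} (hα : 0 ≤ α) (hβ : 0 ≤ β) (i : Bool) (a : V) :
    0 ≤ pt w α β i a := by
  unfold pt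
  split_ifs <;> omega

theorem ind_nn (y : V) (C : Finset V) : 0 ≤ ind y C ∧ ind y C ≤ 1 := by
  unfold ind
  split_ifs <;> omega

/-- potentials of the subsets of `X` -/
theorem inX (hb : S3_base) {H : Hub V} {S X : Finset V} {v y₁ y₂ : V} {ν : ℤ}
    (t : T2 H S X v y₁ y₂ ν) {C : Finset V} (hC : C ⊆ X) (hne : C.Nonempty) :
    3 ≤ hp H C ∧ (v ∈ C → ν ≤ hp H C) := by
  have hb5 := (hb V H t.mc.ok).2.2.2.2 S t.mc
  refine ⟨(hb5.2 C (hC.trans t.sub) hne ?_).2, fun hv => ?_⟩
  · rintro rfl
    exact (Finset.mem_sdiff.1 t.hy₁).2 (hC (Finset.mem_sdiff.1 t.hy₁).1)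
  · refine t.min C (hC.trans t.sub) ⟨v, hv, y₁, ?_, y₂, ?_, t.ne, t.r₁, t.r₂⟩
    · exact Finset.mem_sdiff.2 ⟨(Finset.mem_sdiff.1 t.hy₁).1,
        fun h => (Finset.mem_sdiff.1 t.hy₁).2 (hC h)⟩
    · exact Finset.mem_sdiff.2 ⟨(Finset.mem_sdiff.1 t.hy₂).1,
        fun h => (Finset.mem_sdiff.1 t.hy₂).2 (hC h)⟩

/-- potentials of the sets `X ∪ C` -/
theorem overX (hb : S3_base) {H : Hub V} {S X : Finset V} {v y₁ y₂ : V} {ν : ℤ}
    (t : T2 H S X v y₁ y₂ ν) {C : Finset V} (hC : C ⊆ S \ X) :
    -2 ≤ hp H (X ∪ C) ∧ (y₁ ∉ C → 10 ≤ hp H (X ∪ C)) ∧ (y₂ ∉ C → 10 ≤ hp H (X ∪ C)) ∧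
      (y₁ ∉ C → y₂ ∉ C → ν ≤ hp H (X ∪ C)) := by
  have hb5 := (hb V H t.mc.ok).2.2.2.2 S t.mc
  have hsub : X ∪ C ⊆ S := Finset.union_subset t.sub (hC.trans Finset.sdiff_subset)
  have hvm : v ∈ X ∪ C := Finset.mem_union_left _ t.hv
  have m1 : y₁ ∉ C → y₁ ∈ S \ (X ∪ C) := by
    intro h
    have := Finset.mem_sdiff.1 t.hy₁
    simp only [Finset.mem_sdiff, Finset.mem_union, not_or]
    exact ⟨this.1, this.2, h⟩
  have m2 : y₂ ∉ C → y₂ ∈ S \ (X ∪ C) := by
    intro h
    have := Finset.mem_sdiff.1 t.hy₂
    simp only [Finset.mem_sdiff, Finset.mem_union, not_or]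
    exact ⟨this.1, this.2, h⟩
  refine ⟨hb5.1 _ hsub ⟨v, hvm⟩, fun h => ?_, fun h => ?_, fun h h' => ?_⟩
  · exact t.rb10 _ hsub ⟨v, hvm, y₁, m1 h, t.r₁⟩
  · exact t.rb10 _ hsub ⟨v, hvm, y₂, m2 h, t.r₂⟩
  · exact t.min _ hsub ⟨v, hvm, y₁, m1 h, y₂, m2 h', t.ne, t.r₁, t.r₂⟩

/-- no colouring of `X` has `v` of colour 2 with two spare units -/
theorem fact1 (hb : S3_base) (hk : S3_kill) {H : Hub V} {S X : Finset V} {v y₁ y₂ x z : V}
    {ν : ℤ} (t : T2 H S X v y₁ y₂ ν) (e : E H S X v y₁ y₂ x z) {f : V → Bool} {p : V → V → ℤ}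
    (hc : ColBy H X f p) (hf : f v = false) (h2 : load H X f p v + 2 ≤ H.c false v) : False := by
  set s : V → V → ℤ := fun a b =>
    if a = v then (if b = y₁ then 1 else 0) + (if b = y₂ then 1 else 0) else 0 with hs
  have snn : ∀ a b, 0 ≤ s a b := by
    intro a b
    simp only [hs]
    split_ifs <;> omega
  obtain ⟨C, hC, -, hle⟩ := hk V H S X f p s t.mc t.sub ⟨v, t.hv⟩ hc snn (by
    intro a ha
    by_cases hav : a = v
    · subst hav
      have h1 : ∑ b ∈ S \ X, s a b = 2 := by
        simp only [hs, if_true, Finset.sum_add_distrib, Finset.sum_ite_eq', t.hy₁, t.hy₂]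
        norm_num
      rw [h1, hf]
      exact h2
    · have h1 : ∑ b ∈ S \ X, s a b = 0 := by
        simp only [hs, hav, if_false, Finset.sum_const_zero]
      rw [h1, add_zero]
      exact hc.cap a ha)
  have hsv : 9 * rr H X C ≤ ∑ a ∈ X, ∑ b ∈ C, sv H f s a b := by
    unfold rr
    rw [Finset.mul_sum]
    refine Finset.sum_le_sum fun a ha => ?_
    rw [Finset.mul_sum]
    refine Finset.sum_le_sum fun b hb' => ?_
    have h1 : H.r a b = s a b := e.hr a ha b (hC hb')
    have h3 := e.ok.m_nn a b
    have h4 := snn a b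
    have h5 : 0 ≤ min (H.m a b) (s a b) := le_min h3 h4
    unfold sv
    rw [if_pos h1.le]
    by_cases hav : a = v
    · subst hav
      rw [hf]
      simp only [Bool.false_eq_true, if_false]
      omega
    · have h6 : H.r a b = 0 := by
        rw [h1]
        simp only [hs, hav, if_false]
      rw [h6]
      split_ifs <;> omega
  rw [rr_eq e hC] at hsv
  obtain ⟨o1, o2, o3, o4⟩ := overX hb t hC
  rw [t.hν] at hle
  have hν := t.le
  by_cases c1 : y₁ ∈ C
  · by_cases c2 : y₂ ∈ C
    · have i1 : ind y₁ C = 1 := if_pos c1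
      have i2 : ind y₂ C = 1 := if_pos c2
      omega
    · have i1 : ind y₁ C = 1 := if_pos c1
      have i2 : ind y₂ C = 0 := if_neg c2
      have := o3 c2
      omega
  · by_cases c2 : y₂ ∈ C
    · have i1 : ind y₁ C = 0 := if_neg c1
      have i2 : ind y₂ C = 1 := if_pos c2
      have := o2 c1
      omega
    · have i1 : ind y₁ C = 0 := if_neg c1
      have i2 : ind y₂ C = 0 := if_neg c2
      have := o4 c1 c2
      omega

/-- the reservation on `S \ X` -/
def lB (y₁ y₂ z : V) (i : Bool) (a : V) : ℤ :=
  (pt y₁ 1 0 i a + pt y₂ 1 0 i a) + pt z 0 1 i a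

theorem fin_ (hg : S3_glue) {H : Hub V} {S X : Finset V} {v y₁ y₂ x z : V}
    {ν : ℤ} (t : T2 H S X v y₁ y₂ ν) (e : E H S X v y₁ y₂ x z) {f g : V → Bool}
    {p q : V → V → ℤ} (hf : ColBy H X f p) (hg' : ColBy H (S \ X) g q)
    (h0 : f v = true → load H X f p v + 1 ≤ H.c true v)
    (h1 : f v = true → ¬ (g y₁ = true ∧ g y₂ = true))
    (h2 : f v = false → g y₁ = true ∧ g y₂ = true)
    (h3 : f x = false → load H X f p x + 1 ≤ H.c false x)
    (h4 : ∀ b ∈ S \ X, load H (S \ X) g q b + lB y₁ y₂ z (g b) b ≤ H.c (g b) b) : False := by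
  have rn : ∀ a b, 0 ≤ H.r a b := by
    intro a b
    rcases e.ok.r01 a b with h | h <;> omega
  set w : V → ℤ := fun b => if f v = g b then H.r v b else 0 with hw
  set wX : ℤ := if f x = false ∧ g z = true then 1 else 0 with hwX
  set wB : ℤ := if f x = true ∧ g z = false then 1 else 0 with hwB
  have wnn : ∀ b, 0 ≤ w b := by
    intro b
    simp only [hw]
    split_ifs
    · exact rn v b
    · exact le_rfl
  have wXnn : 0 ≤ wX := by rw [hwX]; split_ifs <;> omega
  have wBnn : 0 ≤ wB := by rw [hwB]; split_ifs <;> omega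
  have wval : ∀ b ∈ S \ X, w b =
      (if b = y₁ then (if f v = g y₁ then 1 else 0) else 0) +
      (if b = y₂ then (if f v = g y₂ then 1 else 0) else 0) := by
    intro b hb'
    have hr := e.hr v e.hv b hb'
    rw [if_pos rfl] at hr
    simp only [hw, hr]
    by_cases c1 : b = y₁
    · subst c1
      have : b ≠ y₂ := e.ne
      simp [this]
    · by_cases c2 : b = y₂
      · subst c2
        simp [c1]
      · simp [c1, c2]
  set sX : V → V → ℤ := fun a b =>
    (if a = v then w b else 0) + (if a = x then (if b = z then wX else 0) else 0) with hsX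
  set sB : V → V → ℤ := fun b a =>
    (if a = v then w b else 0) + (if a = x then (if b = z then wB else 0) else 0) with hsB
  have sXnn : ∀ a b, 0 ≤ sX a b := by
    intro a b
    have := wnn b
    simp only [hsX]
    split_ifs <;> omega
  have sBnn : ∀ b a, 0 ≤ sB b a := by
    intro b a
    have := wnn b
    simp only [hsB]
    split_ifs <;> omega
  obtain ⟨F, P', hcol, -⟩ := hg V H S X f g p q sX sB e.ok t.sub hf hg' sXnn sBnn
    (by
      intro a ha b hb' hab
      by_cases hav : a = v
      · subst hav
        have hax : ¬ (a = x) := fun h => e.hxv h.symm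
        have hwb : w b = H.r a b := if_pos hab
        simp only [hsX, hsB, if_true, hax, if_false, hwb, add_zero, le_refl, and_self]
      · have hr := e.hr a ha b hb'
        rw [if_neg hav] at hr
        rw [hr]
        exact ⟨sXnn a b, sBnn b a⟩)
    (by
      intro a ha b hb' hab
      rw [e.hm a ha b hb']
      by_cases hax : a = x
      · by_cases hbz : b = z
        · subst hax hbz
          have hav : ¬ (a = v) := e.hxv
          simp only [hsX, hsB, if_true, hav, if_false, zero_add]
          rw [hwX, hwB]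
          cases hfa : f a <;> cases hgb : g b <;> simp_all
        · rw [if_pos hax, if_neg hbz]
          exact add_nonneg (sXnn a b) (sBnn b a)
      · rw [if_neg hax]
        exact add_nonneg (sXnn a b) (sBnn b a))
    (by
      intro a ha
      have hsum : ∑ b ∈ S \ X, sX a b =
          (if a = v then (if f v = g y₁ then 1 else 0) + (if f v = g y₂ then 1 else 0) else 0) +
          (if a = x then wX else 0) := by
        simp only [hsX, Finset.sum_add_distrib]
        congr 1
        · by_cases hav : a = v
          · simp only [hav, if_true]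
            rw [Finset.sum_congr rfl wval, Finset.sum_add_distrib, Finset.sum_ite_eq',
              Finset.sum_ite_eq', if_pos e.hy₁, if_pos e.hy₂]
          · simp only [hav, if_false, Finset.sum_const_zero]
        · by_cases hax : a = x
          · simp only [hax, if_true]
            rw [Finset.sum_ite_eq', if_pos e.hz]
          · simp only [hax, if_false, Finset.sum_const_zero]
      rw [hsum]
      have hcap := hf.cap a ha
      by_cases hav : a = v
      · subst hav
        have hax : ¬ (a = x) := fun h => e.hxv h.symm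
        rw [if_pos rfl, if_neg hax]
        cases hfa : f a
        · obtain ⟨g1, g2⟩ := h2 hfa
          rw [hfa] at hcap
          simp only [g1, g2, Bool.false_eq_true, if_false]
          omega
        · have := h0 hfa
          have := h1 hfa
          cases g1 : g y₁ <;> cases g2 : g y₂ <;> simp_all <;> omega
      · rw [if_neg hav]
        by_cases hax : a = x
        · subst hax
          rw [if_pos rfl, hwX]
          cases hfa : f a
          · have := h3 hfa
            split_ifs <;> omega
          · rw [hfa] at hcap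
            simp only [Bool.true_eq_false, false_and, if_false]
            omega
        · rw [if_neg hax]
          omega)
    (by
      intro b hb'
      have hsum : ∑ a ∈ X, sB b a = w b + (if b = z then wB else 0) := by
        simp only [hsB, Finset.sum_add_distrib]
        rw [Finset.sum_ite_eq', Finset.sum_ite_eq', if_pos e.hv, if_pos e.hx]
      rw [hsum]
      have h5 := h4 b hb'
      refine le_trans ?_ h5
      have h6 : w b + (if b = z then wB else 0) ≤ lB y₁ y₂ z (g b) b := by
        unfold lB
        have h7 : w b ≤ pt y₁ 1 0 (g b) b + pt y₂ 1 0 (g b) b := by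
          rw [wval b hb']
          unfold pt
          have k : ∀ y, (f v = g y → g y = true) → (if b = y then (if f v = g y then (1:ℤ) else 0) else 0) ≤
              if b = y then (if g b = true then 1 else 0) else 0 := by
            intro y hy
            by_cases hby : b = y
            · subst hby
              rw [if_pos rfl, if_pos rfl]
              by_cases h8 : f v = g b
              · rw [if_pos h8, if_pos (hy h8)]
              · rw [if_neg h8]
                split_ifs <;> omega
            · rw [if_neg hby, if_neg hby]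
          have k1 := k y₁ (by
            intro h
            cases hfv : f v
            · exact (h2 hfv).1
            · rw [← h, hfv])
          have k2 := k y₂ (by
            intro h
            cases hfv : f v
            · exact (h2 hfv).2
            · rw [← h, hfv])
          exact add_le_add k1 k2
        have h8 : (if b = z then wB else 0) ≤ pt z 0 1 (g b) b := by
          unfold pt
          by_cases hbz : b = z
          · subst hbz
            rw [if_pos rfl, if_pos rfl, hwB]
            cases hgb : g b <;> simp <;> split_ifs <;> omega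
          · rw [if_neg hbz, if_neg hbz]
        exact add_le_add h7 h8
      omega)
  exact t.mc.ncol ⟨F, P', hcol⟩

theorem t2e (hb : S3_base) (hs : S3_state) (hg : S3_glue) (hk : S3_kill) : S3_t2e := by
  intro V _ H S X v y₁ y₂ ν x z t hν hbo heo hx hxv hz hm
  have e := mkE t hbo heo hx hxv hz hm
  have hXS : X ≠ S := by
    rintro rfl
    have := Finset.mem_sdiff.1 t.hy₁
    exact this.2 this.1
  have hBS : S \ X ≠ S := by
    intro h
    have h1 : v ∈ S \ X := by rw [h]; exact t.sub t.hv
    exact (Finset.mem_sdiff.1 h1).2 t.hv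
  -- state A1
  obtain ⟨f, p, hf, hfs⟩ := hs V H S X (fun i a => pt v 1 2 i a + pt x 0 1 i a) t.mc t.sub hXS
    (fun i a => add_nonneg (pt_nn v (by norm_num) (by norm_num) i a)
      (pt_nn x (by norm_num) (by norm_num) i a))
    (by
      intro C hC hne
      rw [cost_add, cost_pt, cost_pt]
      obtain ⟨i1, i2⟩ := inX hb t hC hne
      have j1 := ind_nn x C
      by_cases hvC : v ∈ C
      · have i3 : ind v C = 1 := if_pos hvC
        have i4 := i2 hvC
        rw [i3]
        omega
      · have i3 : ind v C = 0 := if_neg hvC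
        rw [i3]
        omega)
  have hfv : f v = true := by
    by_contra hcon
    have hfv' : f v = false := by simpa using hcon
    have h1 := (hfs v t.hv).1
    have hvx : ¬ (v = x) := fun h => hxv h.symm
    rw [hfv'] at h1
    simp only [pt, hvx, if_true, if_false, Bool.false_eq_true, add_zero] at h1
    exact fact1 hb hk t e hf hfv' h1
  -- state A2
  obtain ⟨f', p', hf', hfs'⟩ := hs V H S X (fun i a => pt v 2 0 i a + pt x 0 1 i a) t.mc t.sub hXS
    (fun i a => add_nonneg (pt_nn v (by norm_num) (by norm_num) i a)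
      (pt_nn x (by norm_num) (by norm_num) i a))
    (by
      intro C hC hne
      rw [cost_add, cost_pt, cost_pt]
      obtain ⟨i1, i2⟩ := inX hb t hC hne
      have j1 := ind_nn x C
      by_cases hvC : v ∈ C
      · have i3 : ind v C = 1 := if_pos hvC
        have i4 := i2 hvC
        rw [i3]
        omega
      · have i3 : ind v C = 0 := if_neg hvC
        rw [i3]
        omega)
  have hfv' : f' v = false := by
    by_contra hcon
    have hfv'' : f' v = true := by simpa using hcon
    have h1 := hfs' v t.hv
    have hvx : ¬ (v = x) := fun h => hxv h.symm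
    rw [hfv''] at h1
    simp only [pt, hvx, if_true, if_false, add_zero] at h1
    have h2 : H.c true v ≤ 1 := e.ok.c1_le v
    omega
  -- state B
  obtain ⟨g, q, hg', hgs⟩ := hs V H S (S \ X) (lB y₁ y₂ z) t.mc Finset.sdiff_subset hBS
    (fun i a => by
      unfold lB
      exact add_nonneg (add_nonneg (pt_nn y₁ (by norm_num) (by norm_num) i a)
        (pt_nn y₂ (by norm_num) (by norm_num) i a)) (pt_nn z (by norm_num) (by norm_num) i a))
    (by
      intro C hC hne
      have hcost : cost (lB y₁ y₂ z) C = 5 * ind y₁ C + 5 * ind y₂ C + 3 * ind z C := by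
        have h1 := cost_add (fun i a => pt y₁ 1 0 i a + pt y₂ 1 0 i a) (pt z 0 1) C
        have h2 := cost_add (pt y₁ 1 0) (pt y₂ 1 0) C
        have h3 : cost (lB y₁ y₂ z) C =
          cost (fun i a => (fun i a => pt y₁ 1 0 i a + pt y₂ 1 0 i a) i a + pt z 0 1 i a) C := rfl
        rw [h3, h1, h2, cost_pt, cost_pt, cost_pt]
        ring
      rw [hcost]
      have hdis : Disjoint X C := by
        rw [Finset.disjoint_left]
        intro a ha ha'
        exact (Finset.mem_sdiff.1 (hC ha')).2 ha
      have hU := (hb V H t.mc.ok).2.1 X C hdis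
      rw [rr_eq e hC, mm_eq e hC, t.hν] at hU
      obtain ⟨o1, o2, o3, o4⟩ := overX hb t hC
      have hν' := t.le
      have j1 := ind_nn z C
      by_cases c1 : y₁ ∈ C
      · by_cases c2 : y₂ ∈ C
        · have i1 : ind y₁ C = 1 := if_pos c1
          have i2 : ind y₂ C = 1 := if_pos c2
          omega
        · have i1 : ind y₁ C = 1 := if_pos c1
          have i2 : ind y₂ C = 0 := if_neg c2
          have := o3 c2
          omega
      · by_cases c2 : y₂ ∈ C
        · have i1 : ind y₁ C = 0 := if_neg c1
          have i2 : ind y₂ C = 1 := if_pos c2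
          have := o2 c1
          omega
        · have i1 : ind y₁ C = 0 := if_neg c1
          have i2 : ind y₂ C = 0 := if_neg c2
          have := o4 c1 c2
          omega)
  have hgs' : ∀ b ∈ S \ X, load H (S \ X) g q b + lB y₁ y₂ z (g b) b ≤ H.c (g b) b :=
    fun b hb' => (hgs b hb').1
  by_cases hboth : g y₁ = true ∧ g y₂ = true
  · refine fin_ hg t e hf' hg' ?_ ?_ (fun _ => hboth) ?_ hgs'
    · intro h
      rw [hfv'] at h
      exact absurd h (by decide)
    · intro h
      rw [hfv'] at h
      exact absurd h (by decide)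
    · intro h
      have h1 := (hfs' x hx).1
      rw [h] at h1
      simp only [pt, hxv, if_true, if_false, Bool.false_eq_true, zero_add] at h1
      exact h1
  · refine fin_ hg t e hf hg' ?_ (fun _ => hboth) ?_ ?_ hgs'
    · intro _
      have h1 := (hfs v t.hv).1
      have hvx : ¬ (v = x) := fun h => hxv h.symm
      rw [hfv] at h1
      simp only [pt, hvx, if_true, if_false, add_zero] at h1
      exact h1
    · intro h
      rw [hfv] at h
      exact absurd h (by decide)
    · intro h
      have h1 := (hfs x hx).1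
      rw [h] at h1
      simp only [pt, hxv, if_true, if_false, Bool.false_eq_true, zero_add] at h1
      exact h1

end Pool.Agent.N81.DF.T2E
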